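import Pool.Agent.CPT.StmtsA

/-!
# CPT, row HIT: the hitting set (author helper81)
-/

set_option autoImplicit false

open MvPolynomial

namespace Pool.Agent.CPT.H81

open Pool.Agent.BSH

theorem hit (hESS : EssStmt) (hCND : CndStmt) (hSBL : SblStmt) (hCAP : CapStmt) : HitStmt := by
  intro E _ _ n s F hF hc
  obtain ⟨A, G, hFG⟩ := hESS E n s F hc
  obtain ⟨t, ht, hne⟩ := hCND E n (2 * s + 1) A G (by rw [← hFG]; exact hF)
  rw [← hFG] at hne
  have hcheap : IsCheapF E (2 * s + 1) s (vdm n (2 * s + 1) (t : E) F) := by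
    apply hSBL E n (2 * s + 1) s F (vdm n (2 * s + 1) (t : E)) hc
    intro i
    rw [vdm, aeval_X]
    refine Submodule.sum_mem _ fun j _ => ?_
    rw [← MvPolynomial.smul_eq_C_mul]
    exact Submodule.smul_mem _ _ (Submodule.subset_span (Or.inl (Or.inr ⟨j, rfl⟩)))
  obtain ⟨c, hc1, hc2⟩ := hCAP E (2 * s + 1) s (fun _ a => (a : E))
    (vdm n (2 * s + 1) (t : E) F) (fun _ => Nat.cast_injective) hne hcheap
  refine ⟨t, ht, c, hc1, ?_⟩
  have h1 : eval (fun i : Fin (2 * s + 1) => ((c i : ℕ) : E)) (vdm n (2 * s + 1) (t : E) F) =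
      eval (fun i : Fin n => pt E (2 * s + 1) t c i) F := by
    rw [vdm, MvPolynomial.aeval_def, MvPolynomial.eval_eval₂]
    have h2 : (eval fun i : Fin (2 * s + 1) => ((c i : ℕ) : E)).comp
        (algebraMap E (MvPolynomial (Fin (2 * s + 1)) E)) = RingHom.id E := by
      ext a
      simp [MvPolynomial.algebraMap_eq]
    rw [h2]
    show eval₂ (RingHom.id E) _ F = eval₂ (RingHom.id E) _ F
    congr 1
    funext i
    simp [pt]
  rw [← h1]
  exact hc2

end Pool.Agent.CPT.H81
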