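import Pool.Agent.CPT.StmtsB

/-!
# CPT, row ITG: (B2), the local integrality of `1 / ((x_0 - c) L_0)` (author helper81)
-/

set_option autoImplicit false

open Polynomial

namespace Pool.Agent.CPT.H81

/-- the order of the inverse of a Laurent series -/
theorem order_inv {Λ : Type} [Field Λ] {f : LaurentSeries Λ} (hf : f ≠ 0) :
    (f⁻¹).order = -f.order := by
  have h1 := HahnSeries.order_mul hf (inv_ne_zero hf)
  rw [mul_inv_cancel₀ hf, HahnSeries.order_one] at h1
  omega

theorem itg (hLAU : LauStmt) (hDEX : DexStmt) (hPUX : PuxStmt) : ItgStmt := by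
  intro E κ K _ _ _ _ _ _ _ _ _ n ψ hψ e he F x hx0 hF hψF c hc
  haveI : CharZero κ := charZero_of_injective_algebraMap (algebraMap E κ).injective
  have hdual := hDEX E κ (AlgebraicClosure κ) n ψ hψ
  obtain ⟨⟨M₀, J₀, hJ₀⟩, hint⟩ := hPUX κ K (AlgebraicClosure κ) (algebraMap E κ c)
  -- the order of the logarithmic derivative under a Puiseux embedding
  have key : ∀ (M : ℕ) (J : K →+* LaurentSeries (AlgebraicClosure κ)),
      IsPx (algebraMap E κ c) M J →
      (J (MvPolynomial.eval₂Hom e x (MvPolynomial.pderiv 0 F) /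
        MvPolynomial.eval₂Hom e x F)).order ≤ -(M : ℤ) := by
    intro M J hJ
    obtain ⟨hM, hJC, hJX⟩ := hJ
    have hcomp : J.comp e = HahnSeries.C.comp (algebraMap E (AlgebraicClosure κ)) := by
      ext1 a
      rw [RingHom.comp_apply, RingHom.comp_apply, he, hJC,
        IsScalarTower.algebraMap_apply E κ (AlgebraicClosure κ)]
    have hev : ∀ G : MvPolynomial (Fin (n + 1)) E,
        MvPolynomial.eval₂Hom (HahnSeries.C.comp (algebraMap E (AlgebraicClosure κ)))
          (fun i => J (x i)) G = J (MvPolynomial.eval₂Hom e x G) := by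
      intro G
      rw [← hcomp]
      exact (MvPolynomial.eval₂_comp_left J e x G).symm
    have h := hLAU E (AlgebraicClosure κ) n (fun j => algebraMap κ (AlgebraicClosure κ) (ψ j))
      hdual F c M hM (fun i => J (x i)) (by
        show J (x 0) = _
        rw [hx0, hJX, IsScalarTower.algebraMap_apply E κ (AlgebraicClosure κ)]) hc (by
        rw [hev]
        exact (map_ne_zero J).2 hF) (fun j => by
        rw [hev, hev, hψF j, map_mul, hJC])
    rw [hev, hev, ← map_div₀] at h
    exact h
  generalize hu : MvPolynomial.eval₂Hom e x (MvPolynomial.pderiv 0 F) /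
    MvPolynomial.eval₂Hom e x F = u at key
  have hu0 : u ≠ 0 := by
    rintro rfl
    have h1 := key M₀ J₀ hJ₀
    rw [map_zero, HahnSeries.order_zero] at h1
    have h2 := hJ₀.1
    omega
  have hXJ : ∀ (M : ℕ) (J : K →+* LaurentSeries (AlgebraicClosure κ)),
      IsPx (algebraMap E κ c) M J →
      J (algebraMap κ[X] K (X - C (algebraMap E κ c))) = HahnSeries.single (M : ℤ) 1 := by
    intro M J hJ
    rw [map_sub, map_sub, hJ.2.1, hJ.2.2, add_sub_cancel_left]
  have hsingle : ∀ M : ℕ, (HahnSeries.single (M : ℤ) (1 : AlgebraicClosure κ) :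
      LaurentSeries (AlgebraicClosure κ)) ≠ 0 := fun M =>
    HahnSeries.single_ne_zero one_ne_zero
  have hX0 : algebraMap κ[X] K (X - C (algebraMap E κ c)) ≠ 0 := by
    intro h0
    have h1 := hXJ M₀ J₀ hJ₀
    rw [h0, map_zero] at h1
    exact hsingle M₀ h1.symm
  obtain ⟨f, hf, hfi⟩ := hint (algebraMap κ[X] K (X - C (algebraMap E κ c)) * u)⁻¹ (by
    intro M J hJ
    rw [map_inv₀, map_mul, hXJ M J hJ]
    have hJu : J u ≠ 0 := (map_ne_zero J).2 hu0
    rw [order_inv (mul_ne_zero (hsingle M) hJu), HahnSeries.order_mul (hsingle M) hJu,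
      HahnSeries.order_single one_ne_zero]
    have := key M J hJ
    omega)
  refine ⟨f, algebraMap κ[X] K f * (algebraMap κ[X] K (X - C (algebraMap E κ c)) * u)⁻¹, hf, hfi,
    ?_⟩
  field_simp

end Pool.Agent.CPT.H81
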