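import Pool.Agent.CPT.StmtsA
import Pool.Agent.Helper78_ACIT.Prime

/-!
# CPT, row TSA: the test (author helper81)
-/

set_option autoImplicit false

open MvPolynomial

namespace Pool.Agent.CPT.H81

open Pool.Agent.BSH Pool.Agent.Helper78_ACIT

theorem pt_cast {A : Type} [CommRing A] (r t : ℕ) (c : Fin r → ℕ) (i : ℕ) :
    ((pt ℤ r t c i : ℤ) : A) = pt A r t c i := by
  rw [pt, pt]
  push_cast
  rfl

theorem tsa (hHIT : HitStmt) (hREN : RenStmt) (hVAL : ValStmt) (hSIZ : SizStmt) : TsaStmt := by
  intro G hG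
  constructor
  · intro h p _ _ t _ c _
    rw [tv, out_eq_eval, h.2, MvPolynomial.eval₂_zero]
  · intro h
    refine ⟨hG, ?_⟩
    by_contra hne
    obtain ⟨F, hF, hcheap, heval⟩ := hREN ℚ G hG hne
    obtain ⟨t, ht, c, hc, hv⟩ := hHIT ℚ G.length (G.countP isMul) F hF hcheap
    have h1 := heval (fun i => pt ℤ (2 * G.countP isMul + 1) t c i)
    have h2 : (fun i : Fin G.length => ((pt ℤ (2 * G.countP isMul + 1) t c i : ℤ) : ℚ)) =
        fun i : Fin G.length => pt ℚ (2 * G.countP isMul + 1) t c i := by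
      funext i
      exact pt_cast _ _ _ _
    rw [h2] at h1
    rw [h1] at hv
    generalize hz : out (fun v => pt ℤ (2 * G.countP isMul + 1) t c (G.idxOf (Gate.var v))) G = z
      at hv
    have hz0 : z ≠ 0 := by
      rintro rfl
      exact hv (by simp)
    have h3 : z.natAbs ≤ 2 ^ ((bits G.length (G.countP isMul) + G.length) *
        2 ^ G.countP isMul) := by
      rw [← hz]
      refine hVAL G (bits G.length (G.countP isMul))
        (fun v => pt ℤ (2 * G.countP isMul + 1) t c (G.idxOf (Gate.var v))) fun v => ?_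
      exact hSIZ G.length (G.countP isMul) t (G.idxOf (Gate.var v)) c ht List.idxOf_le_length hc
    obtain ⟨r, hr, hrle, hrd⟩ := exists_prime_not_dvd z.natAbs
      ((bits G.length (G.countP isMul) + G.length) * 2 ^ G.countP isMul)
      (Int.natAbs_ne_zero.2 hz0) h3
    have h4 := h r hr hrle t ht c hc
    have h5 : tv r t c G = ((z : ℤ) : ZMod r) := by
      rw [tv, ← hz]
      have h6 := out_map (Int.castRingHom (ZMod r))
        (fun v => pt ℤ (2 * G.countP isMul + 1) t c (G.idxOf (Gate.var v))) G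
      have h7 : (fun v => pt (ZMod r) (2 * G.countP isMul + 1) t c (G.idxOf (Gate.var v))) =
          fun v => ((pt ℤ (2 * G.countP isMul + 1) t c (G.idxOf (Gate.var v)) : ℤ) : ZMod r) := by
        funext v
        exact (pt_cast _ _ _ _).symm
      rw [h7]
      exact h6.symm
    rw [h5, ZMod.intCast_zmod_eq_zero_iff_dvd] at h4
    exact hrd (Int.natCast_dvd.1 h4)

end Pool.Agent.CPT.H81
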